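import Pool.Agent.H881R2.Mat.Wires
import Pool.Agent.H881R2.Mat.ToW
import Pool.Agent.H528R2.QDefs

/-!
# The heights of the values of the wires of a plane configuration
-/

set_option autoImplicit false

namespace Pool.Agent.H528R5

open Pool.Agent.H528R2 Pool.Agent.NPC Pool.Agent.H881R2.Mat

/-- height of a rational number -/
def hh (x : ℚ) : ℕ := max x.num.natAbs x.den

theorem hh_le {x : ℚ} {a b : ℤ} {K : ℕ} (hx : x = a / b) (ha : a.natAbs ≤ K) (hb : b.natAbs ≤ K)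
    (hK : 1 ≤ K) : hh x ≤ K := by
  unfold hh
  by_cases hb0 : b = 0
  · subst hb0
    have : x = 0 := by rw [hx]; simp
    subst this
    simpa using hK
  by_cases ha0 : a = 0
  · subst ha0
    have : x = 0 := by rw [hx]; simp
    subst this
    simpa using hK
  apply max_le
  · have h1 : x.num ∣ a := by
      rw [hx, Rat.intCast_div_eq_divInt]
      exact Rat.num_dvd a hb0
    have h2 : x.num.natAbs ∣ a.natAbs := Int.natAbs_dvd_natAbs.2 h1
    exact (Nat.le_of_dvd (Int.natAbs_pos.2 ha0) h2).trans ha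
  · have h1 : (x.den : ℤ) ∣ b := by
      rw [hx, Rat.intCast_div_eq_divInt]
      exact Rat.den_dvd a b
    have h2 : x.den ∣ b.natAbs := Int.natCast_dvd.1 h1
    exact (Nat.le_of_dvd (Int.natAbs_pos.2 hb0) h2).trans hb

/-- `x` is a quotient of integers of absolute value at most `K`, the denominator is not zero -/
def Qt (K : ℕ) (x : ℚ) : Prop := ∃ a b : ℤ, b ≠ 0 ∧ a.natAbs ≤ K ∧ b.natAbs ≤ K ∧ x = a / b

theorem Qt.of_div {K : ℕ} (hK : 1 ≤ K) {a b : ℤ} (ha : a.natAbs ≤ K) (hb : b.natAbs ≤ K) :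
    Qt K ((a : ℚ) / b) := by
  by_cases hb0 : b = 0
  · subst hb0
    exact ⟨0, 1, one_ne_zero, by simp, by simpa using hK, by simp⟩
  · exact ⟨a, b, hb0, ha, hb, rfl⟩

theorem Qt.sub {K : ℕ} {x y : ℚ} (hx : Qt K x) (hy : Qt K y) : Qt (2 * K ^ 2) (x - y) := by
  obtain ⟨a, b, hb, ha', hb', rfl⟩ := hx
  obtain ⟨c, d, hd, hc', hd', rfl⟩ := hy
  have e1 : (a * d).natAbs ≤ K ^ 2 := by
    rw [Int.natAbs_mul, sq]; exact Nat.mul_le_mul ha' hd'
  have e2 : (c * b).natAbs ≤ K ^ 2 := by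
    rw [Int.natAbs_mul, sq]; exact Nat.mul_le_mul hc' hb'
  have e3 : (b * d).natAbs ≤ K ^ 2 := by
    rw [Int.natAbs_mul, sq]; exact Nat.mul_le_mul hb' hd'
  refine ⟨a * d - c * b, b * d, mul_ne_zero hb hd, ?_, by omega, ?_⟩
  · have := Int.natAbs_sub_le (a * d) (c * b)
    omega
  · have hb1 : (b : ℚ) ≠ 0 := by exact_mod_cast hb
    have hd1 : (d : ℚ) ≠ 0 := by exact_mod_cast hd
    push_cast
    field_simp

theorem Qt.hh_le {K : ℕ} {x : ℚ} (hx : Qt K x) : hh x ≤ K := by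
  obtain ⟨a, b, hb, ha', hb', hx⟩ := hx
  have : 0 < b.natAbs := Int.natAbs_pos.2 hb
  exact H528R5.hh_le hx ha' hb' (by omega)

/-- integral determinant -/
def dz (a b c : Fin 3 → ℤ) : ℤ :=
  a 0 * (b 1 * c 2 - b 2 * c 1) - a 1 * (b 0 * c 2 - b 2 * c 0) + a 2 * (b 0 * c 1 - b 1 * c 0)

/-- integer vector as rational vector -/
def cz (a : Fin 3 → ℤ) : Fin 3 → ℚ := fun i => (a i : ℚ)

theorem det3_cz (a b c : Fin 3 → ℤ) : det3 (cz a) (cz b) (cz c) = (dz a b c : ℤ) := by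
  simp only [det3, cz, dz]
  push_cast
  ring

theorem dz_le {a b c : Fin 3 → ℤ} {K : ℕ} (ha : ∀ i, (a i).natAbs ≤ K)
    (hb : ∀ i, (b i).natAbs ≤ K) (hc : ∀ i, (c i).natAbs ≤ K) : (dz a b c).natAbs ≤ 6 * K ^ 3 := by
  have t : ∀ i j k, (a i * (b j * c k)).natAbs ≤ K ^ 3 := by
    intro i j k
    rw [Int.natAbs_mul, Int.natAbs_mul]
    calc _ ≤ K * (K * K) := Nat.mul_le_mul (ha i) (Nat.mul_le_mul (hb j) (hc k))
      _ = K ^ 3 := by ring
  have e : dz a b c = a 0 * (b 1 * c 2) - a 0 * (b 2 * c 1) - a 1 * (b 0 * c 2) +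
      a 1 * (b 2 * c 0) + a 2 * (b 0 * c 1) - a 2 * (b 1 * c 0) := by
    unfold dz; ring
  have t1 := t 0 1 2
  have t2 := t 0 2 1
  have t3 := t 1 0 2
  have t4 := t 1 2 0
  have t5 := t 2 0 1
  have t6 := t 2 1 0
  rw [e]
  generalize a 0 * (b 1 * c 2) = u1 at *
  generalize a 0 * (b 2 * c 1) = u2 at *
  generalize a 1 * (b 0 * c 2) = u3 at *
  generalize a 1 * (b 2 * c 0) = u4 at *
  generalize a 2 * (b 0 * c 1) = u5 at *
  generalize a 2 * (b 1 * c 0) = u6 at *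
  omega

/-! ### normalisation -/

open TaskW

/-- the normalised configuration -/
def nq (p : Lab → Fin 3 → ℚ) (l : Lab) : Fin 3 → ℚ :=
  scal (det3 (p pE) (p pY) (p pO)) (det3 (p pX) (p pY) (p pE)) (cram (p pX) (p pY) (p pO) (p l))

theorem nrm_nq {G : List Gad} {p : Lab → Fin 3 → ℚ}
    (hp : ∀ l₁ ∈ labs G, ∀ l₂ ∈ labs G, ∀ l₃ ∈ labs G,
      (det3 (p l₁) (p l₂) (p l₃) = 0 ↔ dep G l₁ l₂ l₃ = true)) :
    Nrm G (nq p) ∧ det3 (p pE) (p pY) (p pO) ≠ 0 := by
  have hD : det3 (p pX) (p pY) (p pO) ≠ 0 := fun h => by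
    have := (hp _ (mX G) _ (mY G) _ (mO G)).1 h
    rw [nd pX pY pO (by decide)] at this
    exact absurd this (by decide)
  have hE1 : det3 (p pE) (p pY) (p pO) ≠ 0 := fun h => by
    have := (hp _ (mE G) _ (mY G) _ (mO G)).1 h
    rw [nd pE pY pO (by decide)] at this
    exact absurd this (by decide)
  have hE3 : det3 (p pX) (p pY) (p pE) ≠ 0 := fun h => by
    have := (hp _ (mX G) _ (mY G) _ (mE G)).1 h
    rw [nd pX pY pE (by decide)] at this
    exact absurd this (by decide)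
  have hE2 : det3 (p pX) (p pE) (p pO) = 0 := by
    rw [hp _ (mX G) _ (mE G) _ (mO G), dep_iff]
    exact Or.inr (Or.inr (Or.inr (Or.inr (Or.inl ⟨rfl, rfl, rfl⟩))))
  refine ⟨⟨?_, ?_, ?_, ?_, ?_, ?_, ?_, ?_, ?_, ?_, ?_, ?_, ?_⟩, hE1⟩
  · intro l₁ h₁ l₂ h₂ l₃ h₃
    rw [nq, nq, nq, scal_det, cram_det, ← hp l₁ h₁ l₂ h₂ l₃ h₃]
    have : det3 (p pE) (p pY) (p pO) * det3 (p pX) (p pY) (p pE) ≠ 0 := mul_ne_zero hE1 hE3
    rw [div_eq_zero_iff, or_iff_left this, mul_eq_zero, or_iff_right (pow_ne_zero 2 hD)]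
  · exact div_ne_zero hD hE1
  · exact det3_aab _ _
  · simp [nq, scal, cram, det3_aba]
  · simp [nq, scal, cram, det3_aab]
  · exact hD
  · simp [nq, scal, cram, det3_abb]
  · simp [nq, scal, cram, det3_aba]
  · simp [nq, scal, cram, det3_abb]
  · exact div_ne_zero hD hE3
  · exact div_self hE1
  · exact hE2
  · exact div_self hE3

theorem ww_nq (p : Lab → Fin 3 → ℚ) (h : det3 (p pE) (p pY) (p pO) ≠ 0) (a : ℕ) :
    ww (nq p) a = (det3 (p pX) (p (pr a)) (p pO) * det3 (p (pu a)) (p pY) (p pO)) /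
      (det3 (p (pr a)) (p pY) (p pO) * det3 (p pX) (p (pu a)) (p pO)) := by
  have e1 : ∀ l, vR (nq p) l = det3 (p pX) (p l) (p pO) /
      (det3 (p l) (p pY) (p pO) / det3 (p pE) (p pY) (p pO)) := fun l => rfl
  rw [ww, e1, e1]
  generalize det3 (p pE) (p pY) (p pO) = e at *
  generalize det3 (p pX) (p (pr a)) (p pO) = A
  generalize det3 (p (pu a)) (p pY) (p pO) = B
  generalize det3 (p (pr a)) (p pY) (p pO) = C
  generalize det3 (p pX) (p (pu a)) (p pO) = D
  have hd : ∀ x y : ℚ, x / (y / e) = x * e / y := fun x y => div_div_eq_mul_div x y e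
  rw [hd A C, hd D B, div_div_div_eq]
  rw [show A * e * B = (A * B) * e by ring, show C * (D * e) = (C * D) * e by ring,
    mul_div_mul_right _ _ h]

/-- the wires of an integral configuration have quotients of small integers as values -/
theorem ww_qt (p : Lab → Fin 3 → ℤ) {K : ℕ} (hK : 1 ≤ K) (hp : ∀ l i, (p l i).natAbs ≤ K)
    (h : det3 (cz (p pE)) (cz (p pY)) (cz (p pO)) ≠ 0) (a : ℕ) :
    Qt (36 * K ^ 6) (ww (nq (fun l => cz (p l))) a) := by
  rw [ww_nq _ h]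
  simp only [det3_cz]
  rw [← Int.cast_mul, ← Int.cast_mul]
  have hd : ∀ l₁ l₂ l₃, (dz (p l₁) (p l₂) (p l₃)).natAbs ≤ 6 * K ^ 3 := fun l₁ l₂ l₃ =>
    dz_le (hp l₁) (hp l₂) (hp l₃)
  have hm : ∀ l₁ l₂ l₃ l₄ l₅ l₆,
      (dz (p l₁) (p l₂) (p l₃) * dz (p l₄) (p l₅) (p l₆)).natAbs ≤ 36 * K ^ 6 := by
    intro l₁ l₂ l₃ l₄ l₅ l₆
    rw [Int.natAbs_mul]
    calc _ ≤ (6 * K ^ 3) * (6 * K ^ 3) := Nat.mul_le_mul (hd _ _ _) (hd _ _ _)
      _ = 36 * K ^ 6 := by ring
  refine Qt.of_div ?_ (hm _ _ _ _ _ _) (hm _ _ _ _ _ _)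
  have : 1 ≤ K ^ 6 := Nat.one_le_pow _ _ hK
  omega

theorem holds_of_gok {S : List ER.Con} {w : ℕ → ℚ} (hw : ∀ d ∈ toW S, GOk w d) :
    ∀ c ∈ S, HoldsQ (fun i => w (wv i 0) - w (wv i 1)) c := by
  open TaskA in
  intro c hc
  obtain ⟨g, hg⟩ := List.mem_iff_getElem?.1 hc
  have hw' : ∀ d ∈ conG c g, GOk w d := fun d hd => hw d (mem_toW.2 ⟨c, g, hg, hd⟩)
  cases c with
  | one i =>
    rw [conG_one] at hw'
    have h1 := gok_mul (hw' (true, wc g 9, wv i 0, wc g 10) (by simp [oneG]))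
    have h2 := gok_mul (hw' (true, wc g 9, wv i 1, wc g 11) (by simp [oneG]))
    have h3 := gok_add (hw' (false, wc g 9, wc g 11, wc g 10) (by simp [oneG]))
    have h4 := gok_ne (hw' (true, wc g 9, wv i 0, wc g 10) (by simp [oneG]))
    simp only at h4
    show w (wv i 0) - w (wv i 1) = 1
    have h5 : w (wc g 9) * (w (wv i 0) - w (wv i 1)) = w (wc g 9) * 1 := by
      linear_combination h1 - h2 - h3
    exact mul_left_cancel₀ h4 h5
  | add i j k =>
    rw [conG_add] at hw'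
    have r1 := rer_val (w := w) (g := g) (s := 0) (i := i)
      fun d hd => hw' d (by simp only [addG, List.mem_append]; tauto)
    have r2 := rer_val (w := w) (g := g) (s := 1) (i := j)
      fun d hd => hw' d (by simp only [addG, List.mem_append]; tauto)
    have r3 := rer_val (w := w) (g := g) (s := 2) (i := k)
      fun d hd => hw' d (by simp only [addG, List.mem_append]; tauto)
    have h1 := gok_add (hw' (false, wc g 0, wc g 7, wc g 9) (by simp [addG]))
    have h2 := gok_add (hw' (false, wc g 9, wc g 3, wc g 10) (by simp [addG]))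
    have h3 := gok_add (hw' (false, wc g 1, wc g 4, wc g 11) (by simp [addG]))
    have h4 := gok_add (hw' (false, wc g 11, wc g 6, wc g 10) (by simp [addG]))
    show (w (wv i 0) - w (wv i 1)) + (w (wv j 0) - w (wv j 1)) = w (wv k 0) - w (wv k 1)
    norm_num at r1 r2 r3
    linarith
  | mul i j k =>
    rw [conG_mul] at hw'
    have r1 := rer_val (w := w) (g := g) (s := 0) (i := i)
      fun d hd => hw' d (by simp only [mulG, List.mem_append]; tauto)
    have r2 := rer_val (w := w) (g := g) (s := 1) (i := j)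
      fun d hd => hw' d (by simp only [mulG, List.mem_append]; tauto)
    have r3 := rer_val (w := w) (g := g) (s := 2) (i := k)
      fun d hd => hw' d (by simp only [mulG, List.mem_append]; tauto)
    have h1 := gok_mul (hw' (true, wc g 0, wc g 3, wc g 12) (by simp [mulG]))
    have h2 := gok_mul (hw' (true, wc g 1, wc g 4, wc g 13) (by simp [mulG]))
    have h3 := gok_mul (hw' (true, wc g 0, wc g 4, wc g 14) (by simp [mulG]))
    have h4 := gok_mul (hw' (true, wc g 1, wc g 3, wc g 15) (by simp [mulG]))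
    have h5 := gok_add (hw' (false, wc g 12, wc g 7, wc g 16) (by simp [mulG]))
    have h6 := gok_add (hw' (false, wc g 16, wc g 13, wc g 17) (by simp [mulG]))
    have h7 := gok_add (hw' (false, wc g 14, wc g 6, wc g 18) (by simp [mulG]))
    have h8 := gok_add (hw' (false, wc g 18, wc g 15, wc g 17) (by simp [mulG]))
    show (w (wv i 0) - w (wv i 1)) * (w (wv j 0) - w (wv j 1)) = w (wv k 0) - w (wv k 1)
    norm_num at r1 r2 r3
    rw [← r1, ← r2, ← r3]
    linear_combination h1 + h2 - h3 - h4 + h5 + h6 - h7 - h8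

/-- From a plane configuration with coordinates of height at most `H` for the system `toW S` one
gets a solution of `S` of height at most `2592 H^36`. -/
theorem small_solution {S : List ER.Con} {p : Lab → Fin 3 → ℚ} {H : ℕ}
    (hp : ∀ l₁ ∈ labs (toW S), ∀ l₂ ∈ labs (toW S), ∀ l₃ ∈ labs (toW S),
      (det3 (p l₁) (p l₂) (p l₃) = 0 ↔ dep (toW S) l₁ l₂ l₃ = true))
    (hH : ∀ l ∈ labs (toW S), ∀ i, hh (p l i) ≤ H) :
    ∃ v : ℕ → ℚ, (∀ c ∈ S, HoldsQ v c) ∧ ∀ t, hh (v t) ≤ 2592 * H ^ 36 := by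
  classical
  have hH1 : 1 ≤ H := by
    have h1 := hH _ (mY (toW S)) 0
    have h2 : (p pY 0).den ≤ hh (p pY 0) := le_max_right _ _
    have := (p pY 0).den_pos
    omega
  set z : Lab → Fin 3 → ℤ := fun l => if l ∈ labs (toW S) then
    ![(p l 0).num * (p l 1).den * (p l 2).den, (p l 1).num * (p l 0).den * (p l 2).den,
      (p l 2).num * (p l 0).den * (p l 1).den] else 0 with hz
  have hzK : ∀ l i, (z l i).natAbs ≤ H ^ 3 := by
    intro l i
    by_cases hl : l ∈ labs (toW S)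
    · have hn : ∀ i, (p l i).num.natAbs ≤ H := fun i => (le_max_left _ _).trans (hH l hl i)
      have hd : ∀ i, (p l i).den ≤ H := fun i => (le_max_right _ _).trans (hH l hl i)
      have key : ∀ a b c, ((p l a).num * (p l b).den * (p l c).den).natAbs ≤ H ^ 3 := by
        intro a b c
        rw [Int.natAbs_mul, Int.natAbs_mul, Int.natAbs_natCast, Int.natAbs_natCast]
        calc _ ≤ H * H * H := Nat.mul_le_mul (Nat.mul_le_mul (hn a) (hd b)) (hd c)
          _ = H ^ 3 := by ring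
      simp only [hz, if_pos hl]
      fin_cases i
      · exact key 0 1 2
      · exact key 1 0 2
      · exact key 2 0 1
    · simp only [hz, if_neg hl]
      simp
  have hzp : ∀ l ∈ labs (toW S), ∃ c : ℚ, c ≠ 0 ∧ cz (z l) = c • p l := by
    intro l hl
    have h0 : ((p l 0).den : ℚ) ≠ 0 := by exact_mod_cast (p l 0).den_ne_zero
    have h1 : ((p l 1).den : ℚ) ≠ 0 := by exact_mod_cast (p l 1).den_ne_zero
    have h2 : ((p l 2).den : ℚ) ≠ 0 := by exact_mod_cast (p l 2).den_ne_zero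
    refine ⟨(p l 0).den * (p l 1).den * (p l 2).den, mul_ne_zero (mul_ne_zero h0 h1) h2, ?_⟩
    have e : ∀ i, ((p l i).num : ℚ) = p l i * (p l i).den := fun i => (Rat.mul_den_eq_num _).symm
    funext i
    simp only [cz, hz, if_pos hl, Pi.smul_apply, smul_eq_mul]
    fin_cases i
    · show (((p l 0).num * (p l 1).den * (p l 2).den : ℤ) : ℚ) = _
      push_cast
      rw [e 0]
      show _ = (p l 0).den * (p l 1).den * (p l 2).den * p l 0
      ring
    · show (((p l 1).num * (p l 0).den * (p l 2).den : ℤ) : ℚ) = _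
      push_cast
      rw [e 1]
      show _ = (p l 0).den * (p l 1).den * (p l 2).den * p l 1
      ring
    · show (((p l 2).num * (p l 0).den * (p l 1).den : ℤ) : ℚ) = _
      push_cast
      rw [e 2]
      show _ = (p l 0).den * (p l 1).den * (p l 2).den * p l 2
      ring
  have hsm : ∀ (a b c : ℚ) (x y w : Fin 3 → ℚ),
      det3 (a • x) (b • y) (c • w) = (a * b * c) * det3 x y w := by
    intro a b c x y w
    simp only [det3, Pi.smul_apply, smul_eq_mul]
    ring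
  have hpz : ∀ l₁ ∈ labs (toW S), ∀ l₂ ∈ labs (toW S), ∀ l₃ ∈ labs (toW S),
      (det3 (cz (z l₁)) (cz (z l₂)) (cz (z l₃)) = 0 ↔ dep (toW S) l₁ l₂ l₃ = true) := by
    intro l₁ h₁ l₂ h₂ l₃ h₃
    obtain ⟨a, ha, e₁⟩ := hzp l₁ h₁
    obtain ⟨b, hb, e₂⟩ := hzp l₂ h₂
    obtain ⟨c, hc, e₃⟩ := hzp l₃ h₃
    rw [e₁, e₂, e₃, hsm, mul_eq_zero, or_iff_right (mul_ne_zero (mul_ne_zero ha hb) hc)]
    exact hp l₁ h₁ l₂ h₂ l₃ h₃
  obtain ⟨N, hE⟩ := nrm_nq (G := toW S) (p := fun l => cz (z l)) hpz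
  have hgok : ∀ d ∈ toW S, GOk (ww (nq (fun l => cz (z l)))) d :=
    fun d hd => gok N (distinct_toW S) hd
  refine ⟨_, holds_of_gok hgok, fun t => ?_⟩
  have hK : 1 ≤ H ^ 3 := Nat.one_le_pow _ _ hH1
  have q := (ww_qt z hK hzK hE (wv t 0)).sub (ww_qt z hK hzK hE (wv t 1))
  refine q.hh_le.trans (le_of_eq ?_)
  ring

end Pool.Agent.H528R5
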