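import Pool.Agent.H881R2.Mat.IsMat
import Pool.Agent.H881R2.Mat.RepIff
import Mathlib

/-!
# Representations of the matroid of a system by matrices
-/

set_option autoImplicit false

namespace Pool.Agent.H528R5

open Pool.Agent.NPC Pool.Agent.H881R2.Mat

/-! ### linear algebra -/

/-- the rows can be chosen so that three independent vectors remain independent -/
theorem exists_rows {m : ℕ} (c : Fin 3 → Fin m → ℚ) (h : LinearIndependent ℚ c) :
    ∃ r : Fin 3 → Fin m, LinearIndependent ℚ (fun j : Fin 3 => fun i : Fin 3 => c j (r i)) := by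
  classical
  set A : Matrix (Fin 3) (Fin m) ℚ := Matrix.of c with hA
  have hrk : A.rank = 3 := by
    have h1 : LinearIndependent ℚ A.row := h
    simpa using h1.rank_matrix
  have hfr : Module.finrank ℚ (Submodule.span ℚ (Set.range A.col)) = 3 := by
    rw [← Matrix.rank_eq_finrank_span_cols, hrk]
  have hex := Submodule.exists_fun_fin_finrank_span_eq ℚ (Set.range A.col)
  rw [hfr] at hex
  obtain ⟨f, hf1, hf2, hf3⟩ := hex
  choose r hr using hf1
  refine ⟨r, ?_⟩
  have e : f = fun i => fun j => c j (r i) := by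
    funext i
    rw [← hr i]
    rfl
  rw [e] at hf3
  set B : Matrix (Fin 3) (Fin 3) ℚ := Matrix.of (fun i j => c j (r i)) with hB
  have h2 : LinearIndependent ℚ B.row := hf3
  have h3 : IsUnit B := Matrix.linearIndependent_rows_iff_isUnit.1 h2
  have h4 : LinearIndependent ℚ (B.transpose).row :=
    Matrix.linearIndependent_rows_iff_isUnit.2 (by rwa [Matrix.isUnit_transpose])
  exact h4

/-- projection to three coordinates -/
def prj {m : ℕ} (r : Fin 3 → Fin m) : (Fin m → ℚ) →ₗ[ℚ] (Fin 3 → ℚ) :=
  LinearMap.funLeft ℚ ℚ r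

theorem prj_apply {m : ℕ} (r : Fin 3 → Fin m) (x : Fin m → ℚ) (i : Fin 3) :
    prj r x i = x (r i) := rfl

theorem prj_disjoint {m : ℕ} (r : Fin 3 → Fin m) (c : Fin 3 → Fin m → ℚ)
    (h : LinearIndependent ℚ (fun j : Fin 3 => prj r (c j))) :
    ∀ x ∈ Submodule.span ℚ (Set.range c), prj r x = 0 → x = 0 := by
  intro x hx h0
  obtain ⟨a, rfl⟩ := (Submodule.mem_span_range_iff_exists_fun ℚ).1 hx
  rw [map_sum] at h0
  simp only [map_smul] at h0
  have := Fintype.linearIndependent_iff.1 h a h0
  simp [this]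

theorem li_prj {m : ℕ} (r : Fin 3 → Fin m) (c : Fin 3 → Fin m → ℚ)
    (h : LinearIndependent ℚ (fun j : Fin 3 => prj r (c j))) {x y z : Fin m → ℚ}
    (hx : x ∈ Submodule.span ℚ (Set.range c)) (hy : y ∈ Submodule.span ℚ (Set.range c))
    (hz : z ∈ Submodule.span ℚ (Set.range c)) :
    LinearIndependent ℚ ![prj r x, prj r y, prj r z] ↔ LinearIndependent ℚ ![x, y, z] := by
  have e : ![prj r x, prj r y, prj r z] = prj r ∘ ![x, y, z] := by
    funext i; fin_cases i <;> rfl
  rw [e]
  constructor
  · exact fun hl => LinearIndependent.of_comp _ hl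
  · intro hl
    apply LinearIndependent.map hl
    rw [Submodule.disjoint_def]
    intro w hw hw0
    have hle : Submodule.span ℚ (Set.range ![x, y, z]) ≤ Submodule.span ℚ (Set.range c) := by
      rw [Submodule.span_le]
      rintro _ ⟨i, rfl⟩
      fin_cases i
      · exact hx
      · exact hy
      · exact hz
    exact prj_disjoint r c h w (hle hw) (LinearMap.mem_ker.1 hw0)

/-! ### the matroid -/

/-- `M` is the matroid of the system `G` -/
structure IsM (G : List Gad) (M : Matroid (Fin (labs G).length)) : Prop where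
  hE : M.E = Set.univ
  hB : ∀ B : Finset (Fin (labs G).length), (M.IsBase (B : Set (Fin (labs G).length)) ↔
    Listed (n := (labs G).length) (inst G).2 B) ∧
      (Listed (n := (labs G).length) (inst G).2 B → B.card = 3)

section

variable {G : List Gad} {M : Matroid (Fin (labs G).length)}

theorem IsM.base_finset (h : IsM G M) {B : Set (Fin (labs G).length)} (hB : M.IsBase B) :
    ∃ F : Finset (Fin (labs G).length), (F : Set _) = B ∧ F.card = 3 ∧
      Listed (n := (labs G).length) (inst G).2 F := by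
  classical
  have hf : (B.toFinset : Set (Fin (labs G).length)) = B := by simp
  have h1 := (h.hB B.toFinset).1.1 (by rwa [hf])
  exact ⟨B.toFinset, hf, (h.hB _).2 h1, h1⟩

theorem IsM.indep_triple (h : IsM G M) {i j k : Fin (labs G).length} (hij : i < j) (hjk : j < k) :
    M.Indep ({i, j, k} : Set (Fin (labs G).length)) ↔
      dep G (labs G)[i] (labs G)[j] (labs G)[k] = false := by
  rw [← listed_sorted G hij hjk, ← (h.hB _).1]
  have e : (({i, j, k} : Finset (Fin (labs G).length)) : Set (Fin (labs G).length)) = {i, j, k} := by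
    simp
  rw [e]
  refine ⟨fun hI => ?_, fun hB => hB.indep⟩
  obtain ⟨B, hB, hsub⟩ := Matroid.indep_iff.1 hI
  obtain ⟨F, rfl, hc, -⟩ := h.base_finset hB
  have hc' : ({i, j, k} : Finset (Fin (labs G).length)).card = 3 := by
    rw [Finset.card_eq_three]
    exact ⟨_, _, _, hij.ne, (hij.trans hjk).ne, hjk.ne, rfl⟩
  have hsub' : ({i, j, k} : Finset (Fin (labs G).length)) ⊆ F := by
    rw [← Finset.coe_subset, e]; exact hsub
  have := Finset.eq_of_subset_of_card_le hsub' (by omega)
  rw [← this, e] at hB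
  exact hB

/-- columns representing `M` lie in the span of a basis -/
theorem IsM.mem_span (h : IsM G M) {m : ℕ} {v : Fin (labs G).length → Fin m → ℚ}
    (hv : ∀ I : Set (Fin (labs G).length), M.Indep I ↔ LinearIndepOn ℚ v I)
    (l : Fin (labs G).length) :
    v l ∈ Submodule.span ℚ (Set.range ![v (i0 G), v (i1 G), v (i3 G)]) := by
  have e : Set.range ![v (i0 G), v (i1 G), v (i3 G)] =
      v '' ({i0 G, i1 G, i3 G} : Set (Fin (labs G).length)) := by
    ext x
    simp [eq_comm]
    tauto
  rw [e]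
  have hI : M.Indep ({i0 G, i1 G, i3 G} : Set (Fin (labs G).length)) :=
    (h.indep_triple (i0_lt G) (i1_lt G)).2 (dep_basis G)
  have hB : M.IsBase ({i0 G, i1 G, i3 G} : Set (Fin (labs G).length)) := by
    have := (h.hB {i0 G, i1 G, i3 G}).1.2 (listed_basis G)
    simpa using this
  by_contra hn
  have hli := ((hv _).1 hI).insert hn
  have h2 := (hv _).2 hli
  have h3 := hB.eq_of_subset_indep h2 (Set.subset_insert _ _)
  have h4 : l ∈ ({i0 G, i1 G, i3 G} : Set (Fin (labs G).length)) := by
    rw [h3]; exact Set.mem_insert _ _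
  exact hn (Submodule.subset_span ⟨l, h4, rfl⟩)

theorem linearIndepOn_triple {n m : ℕ} (v : Fin n → Fin m → ℚ) {i j k : Fin n} (hij : i < j)
    (hjk : j < k) :
    LinearIndepOn ℚ v ({i, j, k} : Set (Fin n)) ↔ LinearIndependent ℚ ![v i, v j, v k] := by
  rw [← li_finset v hij hjk]
  have e : ((({i, j, k} : Finset (Fin n)) : Set (Fin n))) = {i, j, k} := by simp
  rw [← e]
  exact Iff.rfl

/-- A matrix representing `M` contains a plane configuration. -/
theorem IsM.plane (h : IsM G M) {m : ℕ} {v : Fin (labs G).length → Fin m → ℚ}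
    (hv : ∀ I : Set (Fin (labs G).length), M.Indep I ↔ LinearIndepOn ℚ v I) :
    ∃ (r : Fin 3 → Fin m) (idx : Lab → Fin (labs G).length),
      ∀ l₁ ∈ labs G, ∀ l₂ ∈ labs G, ∀ l₃ ∈ labs G,
        (det3 (prj r (v (idx l₁))) (prj r (v (idx l₂))) (prj r (v (idx l₃))) = 0 ↔
          dep G l₁ l₂ l₃ = true) := by
  classical
  have hI : LinearIndependent ℚ ![v (i0 G), v (i1 G), v (i3 G)] := by
    rw [← linearIndepOn_triple v (i0_lt G) (i1_lt G), ← hv,
      h.indep_triple (i0_lt G) (i1_lt G)]
    exact dep_basis G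
  obtain ⟨r, hr⟩ := exists_rows _ hI
  have hr' : LinearIndependent ℚ (fun j : Fin 3 => prj r (![v (i0 G), v (i1 G), v (i3 G)] j)) := hr
  set c : Fin (labs G).length → (Fin 3 → ℚ) := fun l => prj r (v l) with hc
  have hli : ∀ i j k, LinearIndependent ℚ ![c i, c j, c k] ↔
      LinearIndependent ℚ ![v i, v j, v k] := fun i j k =>
    li_prj r _ hr' (h.mem_span hv i) (h.mem_span hv j) (h.mem_span hv k)
  have key : ∀ i j k : Fin (labs G).length, i < j → j < k →
      (det3 (c i) (c j) (c k) = 0 ↔ dep G (labs G)[i] (labs G)[j] (labs G)[k] = true) := by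
    intro i j k hij hjk
    rw [← not_iff_not, ← ne_eq, ← li_iff_det3, hli, Bool.not_eq_true,
      ← h.indep_triple hij hjk, hv, linearIndepOn_triple v hij hjk]
  have key2 : ∀ i j k : Fin (labs G).length, i ≠ j → i ≠ k → j ≠ k →
      (det3 (c i) (c j) (c k) = 0 ↔ dep G (labs G)[i] (labs G)[j] (labs G)[k] = true) := by
    refine sorted_wlog _ ?_ ?_ key
    · intro i j k h
      rw [det3_swap12, neg_eq_zero, dep_swap12, h]
    · intro i j k h
      rw [det3_swap23, neg_eq_zero, dep_swap23, h]
  have hidx : ∀ l ∈ labs G, ∃ i : Fin (labs G).length, (labs G)[i] = l := by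
    intro l hl
    obtain ⟨i, hi, rfl⟩ := List.getElem_of_mem hl
    exact ⟨⟨i, hi⟩, rfl⟩
  have : Nonempty (Fin (labs G).length) := ⟨i0 G⟩
  choose! idx hidx using hidx
  refine ⟨r, idx, ?_⟩
  intro l₁ h₁ l₂ h₂ l₃ h₃
  by_cases h12 : l₁ = l₂
  · subst h12
    refine iff_of_true (by unfold det3; ring) ((dep_iff _ _ _ _).2 (Or.inl (Or.inl rfl)))
  by_cases h13 : l₁ = l₃
  · subst h13
    refine iff_of_true (by unfold det3; ring) ((dep_iff _ _ _ _).2 (Or.inl (Or.inr (Or.inl rfl))))
  by_cases h23 : l₂ = l₃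
  · subst h23
    refine iff_of_true (by unfold det3; ring) ((dep_iff _ _ _ _).2 (Or.inl (Or.inr (Or.inr rfl))))
  have hne : ∀ a ∈ labs G, ∀ b ∈ labs G, a ≠ b → idx a ≠ idx b := by
    intro a ha b hb hab h
    apply hab
    rw [← hidx a ha, ← hidx b hb, h]
  have := key2 _ _ _ (hne _ h₁ _ h₂ h12) (hne _ h₁ _ h₃ h13) (hne _ h₂ _ h₃ h23)
  rw [hidx _ h₁, hidx _ h₂, hidx _ h₃] at this
  exact this

/-- The matroid is represented by a matrix with three rows if there is a plane configuration. -/
theorem IsM.representable (h : IsM G M) (hp : PlaneRep G) :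
    ∃ v : Fin (labs G).length → Fin 3 → ℚ,
      ∀ I : Set (Fin (labs G).length), M.Indep I ↔ LinearIndepOn ℚ v I := by
  classical
  obtain ⟨p, hp⟩ := hp
  have hp' : ∀ i j k : Fin (labs G).length,
      (det3 (p (labs G)[i]) (p (labs G)[j]) (p (labs G)[k]) = 0 ↔
        dep G (labs G)[i] (labs G)[j] (labs G)[k] = true) := fun i j k =>
    hp _ (List.getElem_mem _) _ (List.getElem_mem _) _ (List.getElem_mem _)
  let v : Fin (labs G).length → Fin 3 → ℚ := fun i => p (labs G)[i]
  have hli : ∀ {i j k : Fin (labs G).length}, i < j → j < k →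
      (LinearIndepOn ℚ v ({i, j, k} : Set (Fin (labs G).length)) ↔
        dep G (labs G)[i] (labs G)[j] (labs G)[k] = false) := by
    intro i j k hij hjk
    rw [linearIndepOn_triple v hij hjk, li_iff_det3, ← Bool.not_eq_true, ← hp' i j k]
  refine ⟨v, fun I => ⟨fun hI => ?_, fun hI => ?_⟩⟩
  · obtain ⟨B, hB, hsub⟩ := Matroid.indep_iff.1 hI
    obtain ⟨F, rfl, hc, hL⟩ := h.base_finset hB
    obtain ⟨i, j, k, hij, hjk, hd, rfl⟩ := (listed_iff G F).1 hL
    refine LinearIndepOn.mono ?_ hsub
    have e : ((({i, j, k} : Finset (Fin (labs G).length)) : Set (Fin (labs G).length))) =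
      {i, j, k} := by simp
    rw [e]
    exact (hli hij hjk).2 hd
  · obtain ⟨B, -, hsub, hspan, hBl⟩ := exists_linearIndepOn_extension hI (Set.subset_univ I)
    have hf : (B.toFinset : Set (Fin (labs G).length)) = B := by simp
    have hBl' : LinearIndependent ℚ (fun x : B.toFinset => v x) := by
      rw [← hf] at hBl
      exact hBl
    -- the span is everything
    have h3 : LinearIndepOn ℚ v ({i0 G, i1 G, i3 G} : Set (Fin (labs G).length)) :=
      (hli (i0_lt G) (i1_lt G)).2 (dep_basis G)
    have htop : Submodule.span ℚ (Set.range v) = ⊤ := by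
      rw [linearIndepOn_triple v (i0_lt G) (i1_lt G)] at h3
      have h4 := h3.span_eq_top_of_card_eq_finrank (by simp)
      rw [eq_top_iff, ← h4]
      apply Submodule.span_mono
      rintro _ ⟨i, rfl⟩
      fin_cases i
      · exact ⟨_, rfl⟩
      · exact ⟨_, rfl⟩
      · exact ⟨_, rfl⟩
    have hspanB : Submodule.span ℚ (v '' B) = ⊤ := by
      rw [eq_top_iff, ← htop, Submodule.span_le, ← Set.image_univ]
      exact hspan
    have hcard : B.toFinset.card = 3 := by
      rw [← finrank_span_finset v B.toFinset hBl', hf, hspanB]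
      simp
    obtain ⟨i, j, k, hij, hjk, hF⟩ := card3_sorted hcard
    have e : B = ({i, j, k} : Set (Fin (labs G).length)) := by
      rw [← hf, hF]; simp
    rw [e] at hBl hsub
    exact ((h.indep_triple hij hjk).2 ((hli hij hjk).1 hBl)).subset hsub

end

end Pool.Agent.H528R5
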