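import Pool.Agent.H528R5.Sys
import Pool.Agent.H528R5.Ht
import Pool.Agent.H528R5.MatRep
import Pool.Agent.H881R2.Mat.Main

/-!
# Matroids of rank three whose rational representations are quadruply exponential
-/

set_option autoImplicit false

namespace Pool.Agent.H528R5

open Pool.Agent.H528R2 Pool.Agent.NPC Pool.Agent.H881R2.Mat

/-! ### the number of elements -/

theorem length_glabs (d : Gad) (g : ℕ) : (glabs d g).length ≤ 15 := by
  unfold glabs
  split <;> simp

theorem length_flatMap_le {α β : Type*} (f : α → List β) (K : ℕ) (l : List α)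
    (h : ∀ a ∈ l, (f a).length ≤ K) : (l.flatMap f).length ≤ K * l.length := by
  induction l with
  | nil => simp
  | cons a l ih =>
    rw [List.flatMap_cons, List.length_append, List.length_cons]
    have h1 := h a (by simp)
    have h2 := ih (fun b hb => h b (by simp [hb]))
    nlinarith

theorem length_labs (G : List Gad) : (labs G).length ≤ 4 + 15 * G.length := by
  rw [labs, List.length_append]
  have := length_flatMap_le (fun q : Gad × ℕ => glabs q.1 q.2) 15 G.zipIdx
    (fun q _ => length_glabs _ _)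
  rw [List.length_zipIdx] at this
  simp only [List.length_cons, List.length_nil]
  omega

theorem length_conG (c : ER.Con) (g : ℕ) : (conG c g).length ≤ 14 := by
  cases c with
  | one i => rw [TaskA.conG_one]; simp [oneG]
  | add i j k => rw [TaskA.conG_add]; simp [addG, rer]
  | mul i j k => rw [TaskA.conG_mul]; simp [mulG, rer]

theorem length_toW (S : List ER.Con) : (toW S).length ≤ 14 * S.length := by
  rw [toW]
  have := length_flatMap_le (fun q : ER.Con × ℕ => conG q.1 q.2) 14 S.zipIdx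
    (fun q _ => length_conG _ _)
  rwa [List.length_zipIdx] at this

/-! ### numerics -/

theorem numeric2 (n H : ℕ) (h : 2 ^ (2 ^ (2 ^ (2 ^ (n + 2)))) ≤ 2592 * H ^ 36) :
    2 ^ (2 ^ (2 ^ (2 ^ n))) ≤ H := by
  by_contra hlt
  push Not at hlt
  set b := 2 ^ (2 ^ n) with hb
  have hb2 : 2 ≤ b := by
    calc 2 = 2 ^ 1 := rfl
      _ ≤ 2 ^ (2 ^ n) := Nat.pow_le_pow_right (by norm_num) Nat.one_le_two_pow
  have e1 : 2 ^ (2 ^ (n + 2)) = b ^ 4 := by
    rw [hb, ← pow_mul, pow_add]; norm_num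
  rw [e1] at h
  have h2 : 2592 * H ^ 36 < 2 ^ (12 + 36 * 2 ^ b) := by
    calc 2592 * H ^ 36 < 2 ^ 12 * (2 ^ (2 ^ b)) ^ 36 := by
          apply Nat.mul_lt_mul_of_lt_of_le (by norm_num) (Nat.pow_le_pow_left hlt.le 36)
          positivity
      _ = 2 ^ (12 + 36 * 2 ^ b) := by
          rw [← pow_mul, ← pow_add]; ring_nf
  have h3 : 12 + 36 * 2 ^ b ≤ 2 ^ (b ^ 4) := by
    have h4 : 7 + b ≤ b ^ 4 := by nlinarith [Nat.pow_le_pow_left hb2 3, Nat.pow_le_pow_left hb2 2]
    have h5 : 4 ≤ 2 ^ b := by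
      calc 4 = 2 ^ 2 := rfl
        _ ≤ 2 ^ b := Nat.pow_le_pow_right (by norm_num) hb2
    calc 12 + 36 * 2 ^ b ≤ 2 ^ 7 * 2 ^ b := by omega
      _ = 2 ^ (7 + b) := (pow_add _ _ _).symm
      _ ≤ 2 ^ (b ^ 4) := Nat.pow_le_pow_right (by norm_num) h4
  have h6 := h2.trans_le (Nat.pow_le_pow_right (by norm_num : 0 < 2) h3)
  omega

/-! ### the theorem -/

/-- Loopless matroids of rank `3` with linearly many elements, representable over `ℚ`, all of whose
representations over `ℚ` have an entry of quadruply exponential height. -/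
theorem huge_representations : ∃ C : ℕ, ∀ n : ℕ, ∃ (N : ℕ) (M : Matroid (Fin N)),
    N ≤ C * (n + 1) ∧ M.E = Set.univ ∧ M.eRank = 3 ∧ (∀ e, M.Indep {e}) ∧
    (∃ A : Matrix (Fin 3) (Fin N) ℚ, ∀ I : Set (Fin N),
      M.Indep I ↔ LinearIndependent ℚ (fun j : I => fun i => A i j)) ∧
    ∀ (m : ℕ) (A : Matrix (Fin m) (Fin N) ℚ),
      (∀ I : Set (Fin N), M.Indep I ↔ LinearIndependent ℚ (fun j : I => fun i => A i j)) →
      ∃ i j, 2 ^ (2 ^ (2 ^ (2 ^ n))) ≤ max (A i j).num.natAbs (A i j).den := by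
  obtain ⟨L, hL⟩ := huge_systems
  refine ⟨4 + 210 * (3 * L), fun n => ?_⟩
  obtain ⟨S, t, hS, hsat, hhuge⟩ := hL (n + 2)
  obtain ⟨M, hM⟩ : ∃ M : Matroid (Fin (labs (toW S)).length), IsM (toW S) M := by
    obtain ⟨M, hE, hB⟩ := isMat3_inst (toW S) (distinct_toW S)
    exact ⟨M, hE, hB⟩
  refine ⟨(labs (toW S)).length, M, ?_, hM.hE, ?_, ?_, ?_, ?_⟩
  · have h1 := length_labs (toW S)
    have h2 := length_toW S
    have h3 : L * (n + 2 + 1) ≤ 3 * L * (n + 1) := by nlinarith
    have h4 : S.length ≤ 3 * L * (n + 1) := hS.trans h3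
    have h5 : 4 ≤ 4 * (n + 1) := by omega
    calc (labs (toW S)).length ≤ 4 + 210 * S.length := by omega
      _ ≤ 4 * (n + 1) + 210 * (3 * L * (n + 1)) := by
          have := Nat.mul_le_mul_left 210 h4
          omega
      _ = (4 + 210 * (3 * L)) * (n + 1) := by ring
  · obtain ⟨B, hBase⟩ := M.exists_isBase
    obtain ⟨F, rfl, hc, -⟩ := hM.base_finset hBase
    rw [← hBase.encard_eq_eRank, Set.encard_coe_eq_coe_finsetCard, hc]
    rfl
  · intro e
    obtain ⟨B, hBm, heB⟩ := noLoops_inst (toW S) e.1 e.2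
    obtain ⟨i, j, k, hij, hjk, hd, rfl⟩ := (mem_inst (toW S) B).1 hBm
    refine ((hM.indep_triple hij hjk).2 hd).subset ?_
    intro x hx
    rw [Set.mem_singleton_iff] at hx
    subst hx
    simp only [List.mem_cons, List.not_mem_nil, or_false] at heB
    rcases heB with h | h | h
    · left; exact Fin.ext h
    · right; left; exact Fin.ext h
    · right; right; exact Fin.ext h
  · have hp : PlaneRep (toW S) := planeRep_of_wsat _ ((wsat_toW S).2 hsat)
    obtain ⟨v, hv⟩ := hM.representable hp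
    exact ⟨Matrix.of (fun i j => v j i), hv⟩
  · intro m A hA
    by_contra hlt
    push Not at hlt
    obtain ⟨r, idx, hp⟩ := hM.plane (v := fun j i => A i j) hA
    have hpos : 0 < 2 ^ (2 ^ (2 ^ (2 ^ n))) := by positivity
    obtain ⟨v, hv1, hv2⟩ := small_solution (S := S) (H := 2 ^ (2 ^ (2 ^ (2 ^ n))) - 1) hp
      (fun l _ i => by
        have := hlt (r i) (idx l)
        have h2 : hh (prj r (fun i => A i (idx l)) i) < 2 ^ (2 ^ (2 ^ (2 ^ n))) := this
        omega)
    have h1 := hhuge v hv1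
    have h2 := hv2 t
    have h3 := numeric2 n _ (h1.trans h2)
    omega

end Pool.Agent.H528R5
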