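import Pool.Agent.H528R3.Huge
import Pool.Agent.H881R2.Mat.ToW

/-!
# Chains of relations as systems of elementary constraints of linear size
-/

set_option autoImplicit false

namespace Pool.Agent.H528R5

open Pool.Agent.H528R2 Pool.Agent.NPC Pool.Agent.H528R3 Pool.Agent.H881R2.Mat

/-- renaming of the variables of a constraint -/
def mapC (f : ℕ → ℕ) : ER.Con → ER.Con
  | .one i => .one (f i)
  | .add i j k => .add (f i) (f j) (f k)
  | .mul i j k => .mul (f i) (f j) (f k)

theorem holds_mapC (v : ℕ → ℚ) (f : ℕ → ℕ) (c : ER.Con) :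
    HoldsQ v (mapC f c) ↔ HoldsQ (v ∘ f) c := by
  cases c <;> rfl

/-- the variables of the states -/
def st (i j : ℕ) : ℕ := 2 * (Nat.pair i j)
/-- the auxiliary variables -/
def au (i j : ℕ) : ℕ := 2 * (Nat.pair i j) + 1

/-- variables of the first relation -/
def f0 (n : ℕ) : ℕ := if n < 2 then st 0 n else au 0 n
/-- variables of the relation number `i + 1` -/
def f1 (i n : ℕ) : ℕ :=
  if n < 2 then st i n else if n < 4 then st (i + 1) (n - 2) else au (i + 1) n

/-- a chain of relations is defined by a system of linear size -/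
theorem chain_sys {R₀ : (Fin 2 → ℚ) → Prop} {R₁ : (Fin 4 → ℚ) → Prop} (h₀ : DioQ 2 R₀)
    (h₁ : DioQ 4 R₁) : ∃ L : ℕ, ∀ m : ℕ, ∃ S : List ER.Con, S.length ≤ L * (m + 1) ∧
      (∀ v : ℕ → ℚ, (∀ c ∈ S, HoldsQ v c) → R₀ ![v (st 0 0), v (st 0 1)] ∧
        ∀ i < m, R₁ ![v (st i 0), v (st i 1), v (st (i + 1) 0), v (st (i + 1) 1)]) ∧
      ∀ s : ℕ → Fin 2 → ℚ, (R₀ ![s 0 0, s 0 1] ∧
        ∀ i < m, R₁ ![s i 0, s i 1, s (i + 1) 0, s (i + 1) 1]) →
        ∃ v : ℕ → ℚ, ∀ c ∈ S, HoldsQ v c := by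
  obtain ⟨S₀, hS₀⟩ := h₀
  obtain ⟨S₁, hS₁⟩ := h₁
  refine ⟨S₀.length + S₁.length, fun m => ?_⟩
  refine ⟨S₀.map (mapC f0) ++ (List.range m).flatMap (fun i => S₁.map (mapC (f1 i))), ?_, ?_, ?_⟩
  · rw [List.length_append, List.length_map, List.length_flatMap]
    simp only [List.length_map, List.map_const', List.length_range, List.sum_replicate,
      smul_eq_mul]
    nlinarith
  · intro v hv
    refine ⟨?_, fun i hi => ?_⟩
    · rw [hS₀]
      refine ⟨v ∘ f0, fun j => ?_, fun c hc => ?_⟩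
      · fin_cases j <;> rfl
      · rw [← holds_mapC]
        exact hv _ (List.mem_append_left _ (List.mem_map_of_mem hc))
    · rw [hS₁]
      refine ⟨v ∘ f1 i, fun j => ?_, fun c hc => ?_⟩
      · fin_cases j <;> rfl
      · rw [← holds_mapC]
        refine hv _ (List.mem_append_right _ ?_)
        rw [List.mem_flatMap]
        exact ⟨i, List.mem_range.2 hi, List.mem_map_of_mem hc⟩
  · rintro s ⟨h1, h2⟩
    obtain ⟨u₀, hu₀, hc₀⟩ := (hS₀ _).1 h1
    have : ∀ i, ∃ u : ℕ → ℚ, i < m → (∀ j : Fin 4,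
        u j = ![s i 0, s i 1, s (i + 1) 0, s (i + 1) 1] j) ∧ ∀ c ∈ S₁, HoldsQ u c := by
      intro i
      by_cases hi : i < m
      · obtain ⟨u, hu, hc⟩ := (hS₁ _).1 (h2 i hi)
        exact ⟨u, fun _ => ⟨hu, hc⟩⟩
      · exact ⟨fun _ => 0, fun h => absurd h hi⟩
    choose u hu using this
    let v : ℕ → ℚ := fun n => if n % 2 = 0 then
        (if (Nat.unpair (n / 2)).2 = 0 then s (Nat.unpair (n / 2)).1 0
          else s (Nat.unpair (n / 2)).1 1)
      else (if (Nat.unpair (n / 2)).1 = 0 then u₀ (Nat.unpair (n / 2)).2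
        else u ((Nat.unpair (n / 2)).1 - 1) (Nat.unpair (n / 2)).2)
    have vst0 : ∀ i, v (st i 0) = s i 0 := by
      intro i
      simp [v, st]
    have vst1 : ∀ i, v (st i 1) = s i 1 := by
      intro i
      simp [v, st]
    have hdiv : ∀ a : ℕ, (2 * a + 1) / 2 = a := fun a => by omega
    have hmod : ∀ a : ℕ, (2 * a + 1) % 2 = 1 := fun a => by omega
    have vau0 : ∀ n, v (au 0 n) = u₀ n := by
      intro n
      simp only [v, au, hdiv, hmod, Nat.unpair_pair]
      simp
    have vau1 : ∀ i n, v (au (i + 1) n) = u i n := by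
      intro i n
      simp only [v, au, hdiv, hmod, Nat.unpair_pair]
      simp
    have e0 : v ∘ f0 = u₀ := by
      funext n
      simp only [Function.comp, f0]
      by_cases hn : n < 2
      · rw [if_pos hn]
        interval_cases n
        · rw [vst0]; exact (hu₀ 0).symm
        · rw [vst1]; exact (hu₀ 1).symm
      · rw [if_neg hn, vau0]
    have e1 : ∀ i < m, v ∘ f1 i = u i := by
      intro i hi
      funext n
      simp only [Function.comp, f1]
      have hui := (hu i hi).1
      by_cases hn : n < 2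
      · rw [if_pos hn]
        interval_cases n
        · rw [vst0]; exact (hui 0).symm
        · rw [vst1]; exact (hui 1).symm
      · rw [if_neg hn]
        by_cases hn' : n < 4
        · rw [if_pos hn']
          interval_cases n
          · rw [show (2 - 2 : ℕ) = 0 from rfl, vst0]; exact (hui 2).symm
          · rw [show (3 - 2 : ℕ) = 1 from rfl, vst1]; exact (hui 3).symm
        · rw [if_neg hn', vau1]
    refine ⟨v, fun c hc => ?_⟩
    rcases List.mem_append.1 hc with hc | hc
    · obtain ⟨c', hc', rfl⟩ := List.mem_map.1 hc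
      rw [holds_mapC, e0]
      exact hc₀ _ hc'
    · obtain ⟨i, hi, hc⟩ := List.mem_flatMap.1 hc
      obtain ⟨c', hc', rfl⟩ := List.mem_map.1 hc
      rw [holds_mapC, e1 i (List.mem_range.1 hi)]
      exact (hu i (List.mem_range.1 hi)).2 _ hc'

/-- Systems of constraints of linear size which are solvable over `ℚ`, one variable of which has
quadruply exponential height in every solution. -/
theorem huge_systems : ∃ L : ℕ, ∀ n : ℕ, ∃ (S : List ER.Con) (t : ℕ), S.length ≤ L * (n + 1) ∧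
    QSat S ∧ ∀ v : ℕ → ℚ, (∀ c ∈ S, HoldsQ v c) →
      2 ^ (2 ^ (2 ^ (2 ^ n))) ≤ max (v t).num.natAbs (v t).den := by
  obtain ⟨s, hs⟩ := chain_huge
  obtain ⟨L, hL⟩ := chain_sys dio_start dio_step
  refine ⟨L * (s + 1), fun n => ?_⟩
  obtain ⟨S, h1, h2, h3⟩ := hL (n + s)
  refine ⟨S, st (n + s) 0, h1.trans ?_, ?_, ?_⟩
  · rw [mul_assoc]
    apply Nat.mul_le_mul_left
    nlinarith
  · obtain ⟨x, hx⟩ := chR_exists (n + s)
    exact h3 x hx
  · intro v hv
    exact hs n (fun i j => v (st i j)) (h2 v hv)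

end Pool.Agent.H528R5
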